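import Pool.Agent.W84.FP.Defs
import Pool.Agent.W349.GS.Dec

/-!
Project FP (helper84), task DECF: the decomposition for a general function `F`, all frequencies
(port of `Pool.Agent.W349.GS.Dec`).
-/

set_option autoImplicit false

namespace Pool.Agent.W440.FP

open Finset Filter
open Pool.Agent.H376R2.MR hiding GG Sm
open Pool.Agent.W78.GA hiding GG PE S_DEC
open Pool.Agent.W638.GA hiding one_term GG_eq sum_eq dec_of
open Pool.Agent.W349.GS (gl_sq dec_bound)
open Pool.Agent.W84.FP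

variable {t c : ℤ} {Ap Bp M : ℕ → Prop} {E : ℕ} {ρ : ℕ → ℤ} {ϖ : ℕ → Qd t c} {F : Qd t c → ℤ}

/-- the twist -/
def twF (F : Qd t c → ℤ) (z : Qd t c) : ℂ := (F z : ℂ) * (gl z : ℂ)

lemma norm_twF (hF : ∀ z, |F z| ≤ 1) (z : Qd t c) : ‖twF F z‖ ≤ 1 := by
  unfold twF
  have h1 : ‖(F z : ℂ)‖ ≤ 1 := by
    rw [Complex.norm_intCast]
    exact_mod_cast hF z
  rw [norm_mul]
  rcases gl_eq z with h | h <;> rw [h] <;> simpa using h1

open scoped Classical in
/-- the product of one element with `G`, sorted by the content -/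
theorem one_term (hD : t ^ 2 < 4 * c) {a : Qd t c} (ha : a ≠ 0)
    (hinv : ∀ (n : ℕ) (u z : Qd t c), n ∣ nm a → prim u → prim z → a * u = (n : Qd t c) * z →
      F u = F z)
    {Z : ℝ} (hZ : 0 < Z) {D : Finset (Qd t c)}
    (hDD : ∀ z : Qd t c, prim z → (nm z : ℝ) ≤ nm a * (Real.exp 1 * Z) → z ∈ D)
    (hDp : ∀ z ∈ D, prim z) (k : ℤ) :
    ps k a / ((nm a : ℕ) : ℂ) * GF F Z k =
      ∑ z ∈ D, twF F z * (((∑ n ∈ (nm a).divisors,
        (if ∃ u : Qd t c, prim u ∧ a * u = (n : Qd t c) * z then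
        Vl (nm a) n (Real.log Z) z else 0) / nm z : ℝ) : ℂ) * ps k z) := by
  have hm0 : 0 < nm a := nm_pos hD ha
  have hmR : (0 : ℝ) < nm a := nm_posR hD ha
  have hmC : ((nm a : ℕ) : ℂ) ≠ 0 := by exact_mod_cast hmR.ne'
  set U := pball t c (Real.exp 1 * Z) with hU
  set Fs : Qd t c → ℂ := fun u => (1 / ((nm a : ℕ) : ℂ)) *
    ((F u : ℂ) * (bg Z u : ℂ)) * ps k (a * u) with hF
  have e1 : ps k a / ((nm a : ℕ) : ℂ) * GF F Z k = ∑ u ∈ U, Fs u := by
    unfold GF DPG
    rw [Finset.mul_sum]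
    refine Finset.sum_congr rfl fun u _ => ?_
    simp only [hF]
    rw [ps_mul hD]
    ring
  have e2 : ∑ u ∈ U, Fs u = ∑ z ∈ D, ∑ n ∈ (nm a).divisors, ∑ u ∈ U,
      (if a * u = (n : Qd t c) * z then Fs u else 0) := by
    have h1 : ∀ u ∈ U, Fs u = ∑ z ∈ D, ∑ n ∈ (nm a).divisors,
        (if a * u = (n : Qd t c) * z then Fs u else 0) := by
      intro u hu
      rw [hU, mem_pball hD] at hu
      obtain ⟨n, hn, z, hz, he⟩ := content_exists hD ha hu.1
      have hn0 : 0 < n := Nat.pos_of_mem_divisors hn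
      have hnR : (1 : ℝ) ≤ n := by exact_mod_cast hn0
      have hzD : z ∈ D := by
        apply hDD z hz
        have h2 : nm a * nm u = n ^ 2 * nm z := by
          rw [← nm_mul, he, nm_mul, nm_natCast]
        have h3 : (nm a : ℝ) * nm u = (n : ℝ) ^ 2 * nm z := by exact_mod_cast h2
        have h4 : (0 : ℝ) ≤ nm z := Nat.cast_nonneg _
        have h5 : (1 : ℝ) ≤ (n : ℝ) ^ 2 := one_le_pow₀ hnR
        calc (nm z : ℝ) ≤ (n : ℝ) ^ 2 * nm z := le_mul_of_one_le_left h4 h5
          _ = nm a * nm u := h3.symm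
          _ ≤ nm a * (Real.exp 1 * Z) := mul_le_mul_of_nonneg_left hu.2 hmR.le
      rw [Finset.sum_eq_single_of_mem z hzD, Finset.sum_eq_single_of_mem n hn]
      · rw [if_pos he]
      · intro n' hn' hne
        rw [if_neg]
        intro h
        rw [he] at h
        exact hne (content_unique hz hz hn0.ne' h).1.symm
      · intro z' hz' hne
        refine Finset.sum_eq_zero fun n' hn' => ?_
        rw [if_neg]
        intro h
        rw [he] at h
        exact hne (content_unique hz (hDp z' hz') hn0.ne' h).2.symm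
    rw [Finset.sum_congr rfl h1, Finset.sum_comm]
    refine Finset.sum_congr rfl fun z _ => ?_
    rw [Finset.sum_comm]
  rw [e1, e2]
  refine Finset.sum_congr rfl fun z hz => ?_
  have hzp := hDp z hz
  have hN : (0 : ℝ) < nm z := nm_posR hD (prim_ne_zero hzp)
  have hNc : ((nm z : ℕ) : ℂ) ≠ 0 := by exact_mod_cast hN.ne'
  push_cast
  rw [Finset.sum_mul, Finset.mul_sum]
  refine Finset.sum_congr rfl fun n hn => ?_
  have hn0 : 0 < n := Nat.pos_of_mem_divisors hn
  have hnR : (0 : ℝ) < n := by exact_mod_cast hn0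
  have hnC : (n : ℂ) ≠ 0 := by exact_mod_cast hn0.ne'
  by_cases hex : ∃ u : Qd t c, prim u ∧ a * u = (n : Qd t c) * z
  · obtain ⟨u, hu, he⟩ := hex
    rw [if_pos ⟨u, hu, he⟩]
    have hNu : (0 : ℝ) < nm u := nm_posR hD (prim_ne_zero hu)
    have hNuc : ((nm u : ℕ) : ℂ) ≠ 0 := by exact_mod_cast hNu.ne'
    have h2 : nm a * nm u = n ^ 2 * nm z := by
      rw [← nm_mul, he, nm_mul, nm_natCast]
    have h3 : (nm a : ℝ) * nm u = (n : ℝ) ^ 2 * nm z := by exact_mod_cast h2
    have h3c : ((nm a : ℕ) : ℂ) * ((nm u : ℕ) : ℂ) = (n : ℂ) ^ 2 * ((nm z : ℕ) : ℂ) := by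
      exact_mod_cast h2
    have hlog : Real.log (nm u) = Real.log (nm z) + 2 * Real.log n - Real.log (nm a) := by
      have := congrArg Real.log h3
      rw [Real.log_mul hmR.ne' hNu.ne', Real.log_mul (by positivity) hN.ne', Real.log_pow] at this
      push_cast at this
      linarith
    have hgl : (F u : ℂ) = (F z : ℂ) := by
      exact_mod_cast hinv n u z (Nat.dvd_of_mem_divisors hn) hu hzp he
    have hps : ps k (a * u) = ps k z := by rw [he, ps_natCast_mul hD hn0]
    by_cases hin : u ∈ U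
    · rw [Finset.sum_eq_single_of_mem u hin, if_pos he]
      · simp only [hF]
        rw [hps, hgl]
        unfold bg Vl
        rw [hlog]
        have e3 : Real.log (nm z) + 2 * Real.log n - Real.log (nm a) - Real.log Z =
          Real.log (nm z) + 2 * Real.log n - Real.log (nm a) - Real.log Z := rfl
        push_cast
        have hd : (1 / ((nm a : ℕ) : ℂ)) / ((nm u : ℕ) : ℂ) =
            1 / (n : ℂ) ^ 2 / ((nm z : ℕ) : ℂ) := by
          rw [div_div, div_div, h3c]
        unfold twF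
        linear_combination ((F z : ℂ) * ((w (Real.log (nm z) + 2 * Real.log n -
          Real.log (nm a) - Real.log Z) : ℝ) : ℂ) * ps k z) * hd -
          ((F z : ℂ) * ((w (Real.log (nm z) + 2 * Real.log n -
          Real.log (nm a) - Real.log Z) : ℝ) : ℂ) * ps k z / (n : ℂ) ^ 2 / ((nm z : ℕ) : ℂ)) *
          gl_sq z
      · intro u' hu' hne
        rw [if_neg]
        intro h
        rw [← he] at h
        exact hne (mul_cancel hD ha h)
    · have hw : w (Real.log (nm u) - Real.log Z) = 0 := by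
        apply bg_zero hD hZ hu
        intro h
        apply hin
        rw [hU, mem_pball hD]
        exact ⟨hu, h⟩
      rw [Finset.sum_eq_zero]
      · unfold Vl
        rw [← hlog, hw]
        simp
      · intro u' hu'
        rw [if_neg]
        intro h
        rw [← he] at h
        rw [mul_cancel hD ha h] at hu'
        exact hin hu'
  · rw [if_neg hex, Finset.sum_eq_zero]
    · simp
    · intro u hu
      rw [if_neg]
      intro h
      rw [hU, mem_pball hD] at hu
      exact hex ⟨u, hu.1, h⟩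

theorem GG_eq (F : Qd t c → ℤ) (hD : t ^ 2 < 4 * c) {Y : ℝ} (hY : 0 < Y) (k : ℤ) :
    GF F Y k = ∑ z ∈ pball t c (Real.exp 2 * Y), twF F z *
      (((((gl z : ℝ) * w (Real.log (nm z) - Real.log Y)) / nm z : ℝ) : ℂ) * ps k z) := by
  unfold GF DPG
  have h12 : Real.exp 1 * Y ≤ Real.exp 2 * Y :=
    mul_le_mul_of_nonneg_right (Real.exp_le_exp.2 (by norm_num)) hY.le
  refine Finset.sum_congr_of_eq_on_inter ?_ ?_ ?_
  · intro z hz hz'
    exfalso
    rw [mem_pball hD] at hz hz'
    exact hz' ⟨hz.1, hz.2.trans h12⟩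
  · intro z hz hz'
    rw [mem_pball hD] at hz hz'
    rw [bg_zero hD hY hz.1 (fun h => hz' ⟨hz.1, h⟩)]
    simp
  · intro z _ _
    unfold bg twF
    push_cast
    linear_combination -((F z : ℂ) * ((w (Real.log (nm z) - Real.log Y) : ℝ) : ℂ) /
      ((nm z : ℕ) : ℂ) * ps k z) * gl_sq z

theorem sum_eq (hT : Tw M ϖ F) (hD : t ^ 2 < 4 * c) (he : Ele t c Ap Bp M E ρ ϖ) {H v₀ v₁ : ℕ}
    (hH : 1 ≤ H) {Y : ℝ} (hY : 0 < Y) (k : ℤ) :
    ∑ v ∈ Ico v₀ v₁, PF M ϖ H v k * GF F (Y * Real.exp (-((v : ℝ) / H))) k =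
      -∑ z ∈ pball t c (Real.exp 2 * Y), twF F z *
        (((((gl z : ℝ) * dT M ϖ H v₀ v₁ Y z + dB M ϖ H v₀ v₁ Y z) / nm z : ℝ) : ℂ) *
          ps k z) := by
  classical
  have hH0 : (0 : ℝ) < H := by exact_mod_cast hH
  have h1 : ∀ v ∈ Ico v₀ v₁, PF M ϖ H v k * GF F (Y * Real.exp (-((v : ℝ) / H))) k =
      -∑ z ∈ pball t c (Real.exp 2 * Y), ∑ m ∈ cellM M H v, twF F z *
        (((((gl z : ℝ) * (if ϖ m ∣ z then
          w (Real.log (nm z) - Real.log Y - (Real.log m - (v : ℝ) / H)) else 0) +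
          ∑ n ∈ m.divisors.erase 1,
            (if ∃ u : Qd t c, prim u ∧ ϖ m * u = (n : Qd t c) * z then
              Vl m n (Real.log Y - (v : ℝ) / H) z else 0)) / nm z : ℝ) : ℂ) * ps k z) := by
    intro v _
    unfold PF
    rw [neg_mul, Finset.sum_mul, Finset.sum_comm]
    congr 1
    refine Finset.sum_congr rfl fun m hm => ?_
    obtain ⟨hmM, hm1, hm2⟩ := cellM_facts hm
    obtain ⟨-, -, hmpos, hϖ⟩ := ele_facts he hmM
    have hn := (he.elt m hmM).1
    have hm0 : (0 : ℝ) < m := by exact_mod_cast hmpos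
    set Z : ℝ := Y * Real.exp (-((v : ℝ) / H)) with hZ
    have hZ0 : 0 < Z := by positivity
    have hlogZ : Real.log Z = Real.log Y - (v : ℝ) / H := by
      rw [hZ, Real.log_mul hY.ne' (Real.exp_pos _).ne', Real.log_exp]; ring
    have hmZ : (m : ℝ) * (Real.exp 1 * Z) ≤ Real.exp 2 * Y := by
      have h5 : (m : ℝ) ≤ Real.exp (1 + (v : ℝ) / H) := by
        rw [← Real.log_le_iff_le_exp hm0]
        have h3 : ((v : ℝ) + 1) / H = (v : ℝ) / H + 1 / H := by ring
        have h4 : (1 : ℝ) / H ≤ 1 := by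
          rw [div_le_one hH0]; exact_mod_cast hH
        linarith
      calc (m : ℝ) * (Real.exp 1 * Z) ≤ Real.exp (1 + (v : ℝ) / H) * (Real.exp 1 * Z) :=
            mul_le_mul_of_nonneg_right h5 (by positivity)
        _ = Real.exp 2 * Y := by
            rw [hZ]
            have : Real.exp (1 + (v : ℝ) / H) * (Real.exp 1 * (Y * Real.exp (-((v : ℝ) / H)))) =
              (Real.exp (1 + (v : ℝ) / H) * Real.exp 1 * Real.exp (-((v : ℝ) / H))) * Y := by ring
            rw [this, ← Real.exp_add, ← Real.exp_add]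
            congr 2
            ring
    have h2 := one_term (F := F) hD hϖ (fun n u z hn' hu hz hz' =>
        hT.mul m n u z hmM (by rwa [hn] at hn') hu hz hz') hZ0 (D := pball t c (Real.exp 2 * Y))
      (by
        intro z hz hz2
        rw [hn] at hz2
        rw [mem_pball hD]
        exact ⟨hz, hz2.trans hmZ⟩)
      (fun z hz => ((mem_pball hD).1 hz).1) k
    rw [hn] at h2
    rw [h2]
    refine Finset.sum_congr rfl fun z hz => ?_
    rw [mem_pball hD] at hz
    congr 3
    have h1m : 1 ∈ m.divisors := by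
      rw [Nat.mem_divisors]
      exact ⟨one_dvd _, by omega⟩
    rw [← Finset.sum_div, ← Finset.add_sum_erase _ _ h1m, hlogZ]
    congr 2
    have hiff : (∃ u : Qd t c, prim u ∧ ϖ m * u = ((1 : ℕ) : Qd t c) * z) ↔ ϖ m ∣ z := by
      constructor
      · rintro ⟨u, -, hu⟩
        rw [Nat.cast_one, one_mul] at hu
        exact ⟨u, hu.symm⟩
      · rintro ⟨u, rfl⟩
        refine ⟨u, prim_of_dvd hz.1 (Dvd.intro_left _ rfl), ?_⟩
        rw [Nat.cast_one, one_mul]
    by_cases hd : ϖ m ∣ z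
    · rw [if_pos (hiff.2 hd), if_pos hd]
      unfold Vl
      rw [Nat.cast_one, Real.log_one]
      have e1 : Real.log (nm z) + 2 * 0 - Real.log m - (Real.log Y - (v : ℝ) / H) =
        Real.log (nm z) - Real.log Y - (Real.log m - (v : ℝ) / H) := by ring
      rw [e1]
      ring
    · rw [if_neg (fun h => hd (hiff.1 h)), if_neg hd, mul_zero]
  rw [Finset.sum_congr rfl h1, Finset.sum_neg_distrib, Finset.sum_comm]
  congr 1
  refine Finset.sum_congr rfl fun z _ => ?_
  rw [← Finset.sum_congr rfl (fun v _ => Finset.mul_sum _ _ _), ← Finset.mul_sum]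
  congr 1
  rw [← Finset.sum_congr rfl (fun v _ => Finset.sum_mul _ _ _), ← Finset.sum_mul]
  congr 1
  unfold dT dB
  rw [Finset.mul_sum, ← Finset.sum_add_distrib, Finset.sum_div]
  push_cast
  refine Finset.sum_congr rfl fun v _ => ?_
  rw [Finset.mul_sum, ← Finset.sum_add_distrib, Finset.sum_div]
theorem decf (hD : t ^ 2 < 4 * c) (hlati : S_LATI t c) (htk : S_TK t c) : S_DECF t c := by
  intro Ap Bp M E ρ ϖ he F hT
  obtain ⟨C, hC, hb⟩ := dec_bound hD hlati htk he
  refine ⟨C, hC, fun H v₀ v₁ hH hHv hW Y hexp => ?_⟩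
  have h := hb H v₀ v₁ hH hHv hW Y hexp
  set W : ℝ := ∑ v ∈ Ico v₀ v₁, mE M H v with hWdef
  have hY : 1 ≤ Y := by
    refine le_trans ?_ hexp
    rw [← Real.exp_zero]
    apply Real.exp_le_exp.mpr; positivity
  have hY0 : 0 < Y := by linarith
  have hW0 : 0 < W := by linarith
  have hWc : (W : ℂ) ≠ 0 := by exact_mod_cast hW0.ne'
  refine ⟨pball t c (Real.exp 2 * Y), fun z => twF F z *
    ((((gl z : ℝ) * (w (Real.log (nm z) - Real.log Y) -
      dT M ϖ H v₀ v₁ Y z / W) - dB M ϖ H v₀ v₁ Y z / W) / nm z : ℝ) : ℂ), ?_, ?_, ?_⟩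
  · intro z hz
    rw [mem_pball hD] at hz
    exact hz
  · intro k
    rw [sum_eq hT hD he hH hY0 k, GG_eq F hD hY0 k]
    unfold DPG
    rw [neg_mul_neg, Finset.mul_sum, ← Finset.sum_add_distrib]
    refine Finset.sum_congr rfl fun z hz => ?_
    rw [mem_pball hD] at hz
    have hzc : ((nm z : ℕ) : ℂ) ≠ 0 := by exact_mod_cast (nm_posR hD (prim_ne_zero hz.1)).ne'
    push_cast
    field_simp
    ring
  · refine le_trans ?_ h
    refine mul_le_mul_of_nonneg_left (Finset.sum_le_sum fun z _ => ?_) hY0.le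
    refine pow_le_pow_left₀ (norm_nonneg _) ?_ 2
    rw [norm_mul]
    exact mul_le_of_le_one_left (norm_nonneg _) (norm_twF hT.bd z)

end Pool.Agent.W440.FP

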